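import Pool.Agent.J6H14.WF2.FinB
import Pool.Agent.J6H14.WF2.TwoTwo
import Pool.Agent.Results.MP_e32a7e_nt.OddPrimes
import Pool.Agent.Results.MP_e32a7e_nt.PRankOne

/-!
# Weil numbers with prescribed p-rank over the prime field, all primes

For every prime `p`, every `g ≥ 2` and every `0 ≤ f ≤ g` except `(g, f) = (2, 0)` there is an
irreducible Weil `p`-polynomial of degree `2g` with exactly `f` unit roots such that no power of a
root generates a smaller field. By Honda-Tate theory it is the characteristic polynomial of Frobenius
of an absolutely simple abelian variety over `F_p` of dimension `g` and `p`-rank `f`. (A supersingular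
abelian surface over an algebraically closed field is not simple, so the excluded pair does not
occur; the case `g = 1` is classical.) So `n(p, g, f) = 1` whenever it is defined.

The new part is `p = 2`, `f ≥ 2` (and the pair `(2, 2)` for all `p`). For `p = 2` the polynomial is
`P = ∑_{i<g} a_i (X^(2g-i) + 2^(g-i) X^i) + a_g X^g` with `P = (X² - 1)^g` modulo 3 and `P(1) = 6`
modulo 9. This implies that `P` is irreducible, that `ℚ(x)` contains no square root of `-3`, and that
the ratio of two conjugates of `x` can only be a root of unity of order dividing `2·3^t`, so no power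
of `x` generates a smaller field. The parities of the `a_i` prescribe the 2-rank. The roots are
located by comparison of a half of `P` with a simpler zero-free polynomial on a circle; for `g ≥ 18`
the first 18 coefficients depend only on `g` modulo 9 and `min(f, 18)` and are taken from a table with
certificates (sums of squares), the remaining ones are small. For `7 ≤ g ≤ 17` a table is used, and
for the smallest cases another criterion (a prime value of `P` and a simple root modulo 3).
-/

set_option autoImplicit false

namespace Pool.Agent.Results.MP_e32a7e_nt.AllPrimes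

open Polynomial

/-- For every prime `p`, `g ≥ 2` and `f ≤ g` with `(g, f) ≠ (2, 0)` there is a monic integer
polynomial `P` of degree `2g`, irreducible over the rationals, all of whose complex roots have
absolute value `√p`, whose coefficients of degree less than `2g - f` are divisible by `p` while the
coefficient of degree `2g - f` is not, and such that `ℚ(xⁿ) = ℚ(x)` for every complex root `x` and
every `n ≥ 1`. -/
theorem result (p g f : ℕ) (hp : p.Prime) (hg : 2 ≤ g) (hfg : f ≤ g) (h20 : ¬ (g = 2 ∧ f = 0)) :
    ∃ P : ℤ[X], P.Monic ∧ P.natDegree = 2 * g ∧ Irreducible (P.map (Int.castRingHom ℚ)) ∧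
      (∀ x : ℂ, aeval x P = 0 → ‖x‖ = Real.sqrt p) ∧
      (∀ i < 2 * g - f, (p : ℤ) ∣ P.coeff i) ∧ ¬ (p : ℤ) ∣ P.coeff (2 * g - f) ∧
      (∀ x : ℂ, aeval x P = 0 → ∀ n : ℕ, 1 ≤ n →
        IntermediateField.adjoin ℚ {x ^ n} = IntermediateField.adjoin ℚ {x}) := by
  by_cases h3 : 3 ≤ g
  · by_cases h : p = 2 → f ≤ 1
    · exact OddPrimes.result p g f hp h3 hfg h
    · push Not at h
      obtain ⟨rfl, hf⟩ := h
      exact J6H14.WF2.good_two h3 hf hfg
  · have hg2 : g = 2 := by omega
    subst hg2
    have hf : f = 1 ∨ f = 2 := by omega
    rcases hf with rfl | rfl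
    · exact PRankOne.result p 2 hp le_rfl
    · exact J6H14.WF2.good22 hp

end Pool.Agent.Results.MP_e32a7e_nt.AllPrimes
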